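import Pool.Agent.H74.TQ.Stmts

/-!
# Two queries, module CHAIN
-/

set_option autoImplicit false

namespace Pool.TQ

open TMLib Polynomial

namespace CHAINaux

variable {α : Type} (Q : α × List Bool → Form) (x : α)

lemma tr_len (n : ℕ) : (trans Q x n).length = n := by
  induction n with
  | zero => rfl
  | succ n ih => simp [trans, ih]

lemma tr_take (n j : ℕ) (h : j ≤ n) : (trans Q x n).take j = trans Q x j := by
  induction n with
  | zero =>
    have : j = 0 := by omega
    subst this
    rfl
  | succ n ih =>
    rcases Nat.lt_or_ge n j with h1 | h1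
    · have : j = n + 1 := by omega
      subst this
      rw [List.take_of_length_le]
      rw [tr_len]
    · have : (trans Q x (n + 1)) = trans Q x n ++ [satb (Q (x, trans Q x n))] := rfl
      rw [this, List.take_append_of_le_length (by rw [tr_len]; exact h1), ih h1]

lemma tr_getD (n j : ℕ) (h : j < n) :
    (trans Q x n).getD j false = satb (Q (x, trans Q x j)) := by
  have h1 : (trans Q x n).take (j + 1) = trans Q x j ++ [satb (Q (x, trans Q x j))] := by
    rw [tr_take Q x n (j + 1) h]
    rfl
  have h2 : (trans Q x n).getD j false = ((trans Q x n).take (j + 1)).getD j false := by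
    simp [List.getD_eq_getElem?_getD, List.getElem?_take]
  rw [h2, h1]
  have h3 : (trans Q x j).length = j := tr_len Q x j
  simp [List.getD_eq_getElem?_getD, List.getElem?_append_right, h3]

/-- two lists with the same prefixes are equal: correctness bit by bit -/
lemma eq_trans (w : List Bool) (k : ℕ) (hk : k ≤ w.length)
    (h : ∀ j < k, w.take j = trans Q x j → w.getD j false = satb (Q (x, w.take j))) :
    w.take k = trans Q x k := by
  induction k with
  | zero => rfl
  | succ k ih =>
    have h1 := ih (by omega) (fun j hj => h j (by omega))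
    have h2 := h k (by omega) h1
    have h3 : w.take (k + 1) = w.take k ++ [w.getD k false] := by
      rw [List.take_add_one]
      congr 1
      have : k < w.length := by omega
      simp [List.getD_eq_getElem?_getD, List.getElem?_eq_getElem this]
    rw [h3, h2, h1]
    rfl

variable (c : Ctx) (hc : KeyProps c) (m : ℕ)

include hc in
lemma cp_bit (w : List Bool) (hw : Cp c Q m x w) (j : ℕ) (hj : j < w.length) :
    w.getD j false = satb (Q (x, w.take j)) := by
  rcases hw j hj with ⟨h1, h2⟩ | ⟨h1, h2⟩
  · rw [h1]
    exact ((satb_iff _).mpr h2).symm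
  · rw [h1]
    exact ((satb_false_iff _).mpr (hc.sound _ _ h2)).symm

include hc in
lemma cp_eq (w : List Bool) (hw : Cp c Q m x w) : w = trans Q x w.length := by
  have := eq_trans Q x w w.length le_rfl (fun j hj _ => cp_bit Q x c hc m w hw j hj)
  rwa [List.take_length] at this

lemma cp_take (w : List Bool) (hw : Cp c Q m x w) (k : ℕ) : Cp c Q m x (w.take k) := by
  intro j hj
  rw [List.length_take] at hj
  have hjk : j < k := by omega
  have hjw : j < w.length := by omega
  have h1 : (w.take k).getD j false = w.getD j false := by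
    simp [List.getD_eq_getElem?_getD, List.getElem?_take, hjk]
  have h2 : (w.take k).take j = w.take j := by
    rw [List.take_take, min_eq_left hjk.le]
  rw [h1, h2]
  exact hw j hjw

include hc in
lemma ci_iff (i : ℕ) : Ci c Q m x i ↔ Cp c Q m x (trans Q x i) := by
  constructor
  · rintro ⟨w, hl, hw⟩
    have := cp_eq Q x c hc m w hw
    rw [hl] at this
    rwa [this] at hw
  · intro h
    exact ⟨_, tr_len Q x i, h⟩

include hc in
lemma ci_mono (i j : ℕ) (hij : i ≤ j) (h : Ci c Q m x j) : Ci c Q m x i := by
  rw [ci_iff Q x c hc] at h ⊢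
  have := cp_take Q x c m _ h i
  rwa [tr_take Q x j i hij] at this

lemma ci_zero : Ci c Q m x 0 := ⟨[], rfl, fun j hj => absurd hj (Nat.not_lt_zero j)⟩

include hc in
/-- the query at the last certified position is hard -/
lemma hard_of (i : ℕ) (h1 : Ci c Q m x i) (h2 : ¬ Ci c Q m x (i + 1)) :
    c.Hard m (Q (x, trans Q x i)) := by
  rw [ci_iff Q x c hc] at h1
  have key : ∀ b : Bool, ((b = true ∧ Sat (Q (x, trans Q x i))) ∨
      (b = false ∧ c.E m (Q (x, trans Q x i)))) → Ci c Q m x (i + 1) := by
    intro b hb
    refine ⟨trans Q x i ++ [b], by simp [tr_len], ?_⟩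
    intro j hj
    have hl : (trans Q x i).length = i := tr_len Q x i
    rcases Nat.lt_or_ge j i with h | h
    · have e1 : (trans Q x i ++ [b]).getD j false = (trans Q x i).getD j false := by
        simp [List.getD_eq_getElem?_getD, List.getElem?_append_left (by rw [hl]; exact h :
          j < (trans Q x i).length)]
      have e2 : (trans Q x i ++ [b]).take j = (trans Q x i).take j :=
        List.take_append_of_le_length (by rw [hl]; exact h.le)
      rw [e1, e2]
      exact h1 j (by rw [hl]; exact h)
    · have hji : j = i := by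
        simp only [List.length_append, List.length_singleton, hl] at hj
        omega
      subst hji
      have e1 : (trans Q x j ++ [b]).getD j false = b := by
        simp [List.getD_eq_getElem?_getD, List.getElem?_append_right, hl]
      have e2 : (trans Q x j ++ [b]).take j = trans Q x j := by
        rw [List.take_append_of_le_length (by rw [hl]), List.take_of_length_le (by rw [hl])]
      rw [e1, e2]
      exact hb
  constructor
  · intro hs
    exact h2 (key true (Or.inl ⟨rfl, hs⟩))
  · intro he
    exact h2 (key false (Or.inr ⟨rfl, he⟩))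

include hc in
/-- a full transcript at the right position is the true transcript -/
lemma full_eq (T i : ℕ) (w : List Bool) (hw : Full c Q m x T i w)
    (hsz : ∀ w : List Bool, w.length ≤ T → sz (Q (x, w)) ≤ m)
    (hh : c.Hard m (Q (x, trans Q x i))) : w = trans Q x T := by
  obtain ⟨hl, hiT, hcp, hwi, hrest⟩ := hw
  have hti : w.take i = trans Q x i := by
    have := cp_eq Q x c hc m _ hcp
    rwa [List.length_take, hl, min_eq_left hiT.le] at this
  have h := eq_trans Q x w T (by rw [hl]) (by
    intro j hj hjt
    rcases lt_trichotomy j i with h | h | h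
    · have h1 := cp_bit Q x c hc m _ hcp j (by rw [List.length_take, hl]; omega)
      have e1 : (w.take i).getD j false = w.getD j false := by
        simp [List.getD_eq_getElem?_getD, List.getElem?_take, h]
      have e2 : (w.take i).take j = w.take j := by
        rw [List.take_take, min_eq_left h.le]
      rw [e1, e2] at h1
      exact h1
    · subst h
      rw [hwi, hti]
      exact ((satb_false_iff _).mpr hh.1).symm
    · rcases hrest j hj h with ⟨h1, h2⟩ | ⟨h1, h2⟩
      · rw [h1]
        exact ((satb_iff _).mpr h2).symm
      · rw [h1]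
        rw [hti] at h2
        have hs : sz (Q (x, w.take j)) ≤ m := hsz _ (by rw [List.length_take]; omega)
        exact ((satb_false_iff _).mpr ((hc.key m _ hh _ hs).mpr h2)).symm)
  rwa [← hl, List.take_length, hl] at h

include hc in
/-- the true transcript is full -/
lemma full_trans (T i : ℕ) (hiT : i < T)
    (hsz : ∀ w : List Bool, w.length ≤ T → sz (Q (x, w)) ≤ m)
    (hci : Ci c Q m x i) (hh : c.Hard m (Q (x, trans Q x i))) :
    Full c Q m x T i (trans Q x T) := by
  refine ⟨tr_len Q x T, hiT, ?_, ?_, ?_⟩
  · rw [tr_take Q x T i hiT.le]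
    exact (ci_iff Q x c hc m i).mp hci
  · rw [tr_getD Q x T i hiT]
    exact (satb_false_iff _).mpr hh.1
  · intro j hj hij
    rw [tr_getD Q x T j hj, tr_take Q x T j hj.le, tr_take Q x T i hiT.le]
    by_cases hs : Sat (Q (x, trans Q x j))
    · left
      exact ⟨(satb_iff _).mpr hs, hs⟩
    · right
      refine ⟨(satb_false_iff _).mpr hs, ?_⟩
      exact (hc.key m _ hh _ (hsz _ (by rw [tr_len]; exact hj.le))).mp hs

end CHAINaux

open CHAINaux

theorem chain : S_CHAIN := by
  classical
  intro c hc α Q O CF m T x hsz hCF
  -- the last certified position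
  obtain ⟨i0, hi0T, hi0, hmax⟩ : ∃ i0, i0 ≤ T ∧ Ci c Q m x i0 ∧
      ∀ i, i ≤ T → Ci c Q m x i → i ≤ i0 := by
    refine ⟨Nat.findGreatest (fun i => Ci c Q m x i) T, Nat.findGreatest_le T, ?_, ?_⟩
    · exact Nat.findGreatest_spec (P := fun i => Ci c Q m x i) (Nat.zero_le T) (ci_zero Q x c m)
    · intro i hi h
      exact Nat.le_findGreatest hi h
  have hard0 : i0 < T → c.Hard m (Q (x, trans Q x i0)) := by
    intro h
    apply hard_of Q x c hc m i0 hi0
    intro h1
    have := hmax (i0 + 1) h h1
    omega
  have hnot : ∀ i, i0 < i → i ≤ T → ¬ Ci c Q m x i := by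
    intro i hi hiT h
    have := hmax i hiT h
    omega
  -- the meaning of `bb`, `GG`
  have hGF : ∀ i ≤ T, ∀ l ≤ T, bb c CF x i l = false →
      ((Ci c Q m x i ∧ ¬ Ci c Q m x l) ↔ Sat (GG c CF x i l)) := by
    intro i hi l hl h
    have := c.specF (CF (x, i)) (CF (x, l)) h
    rw [hCF i hi, hCF l hl] at this
    exact this
  have hGT : ∀ i ≤ T, ∀ l ≤ T, bb c CF x i l = true →
      ((Ci c Q m x i ∧ ¬ Ci c Q m x l) ↔ ¬ Sat (GG c CF x i l)) := by
    intro i hi l hl h
    have := c.specT (CF (x, i)) (CF (x, l)) h
    rw [hCF i hi, hCF l hl] at this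
    exact this
  -- full transcripts give `Ci`
  have hfc : ∀ i w, Full c Q m x T i w → Ci c Q m x i := by
    intro i w hw
    refine ⟨w.take i, ?_, hw.2.2.1⟩
    rw [List.length_take, hw.1, min_eq_left hw.2.1.le]
  have hfull : ∀ w, i0 < T → Full c Q m x T i0 w → w = trans Q x T := fun w h hw =>
    full_eq Q x c hc m T i0 w hw hsz (hard0 h)
  -- soundness of `XX`
  have hX : ∀ v, XX c Q O CF m T v x → O (x, trans Q x T) = v := by
    rintro v (⟨w, hl, hcp, hO⟩ | ⟨i, w, i', hiT, hw, hO, hi', hb, hG⟩)
    · have := cp_eq Q x c hc m w hcp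
      rw [hl] at this
      rwa [this] at hO
    · have h1 := (hGF i' (by omega) (i + 1) hiT hb).mpr hG
      have h2 := hfc i w hw
      have h3 : i = i0 := by
        have h4 := hmax i hiT.le h2
        by_contra hne
        exact h1.2 (ci_mono Q x c hc m (i + 1) i0 (by omega) hi0)
      subst h3
      have := hfull w hiT hw
      rwa [this] at hO
  -- if no output is certified
  have hN : (∀ v, ¬ XX c Q O CF m T v x) → i0 < T ∧
      ∀ i' ≤ i0, bb c CF x i' (i0 + 1) = true := by
    intro hn
    have h1 : i0 < T := by
      by_contra h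
      have h2 : i0 = T := by omega
      subst h2
      exact hn _ (Or.inl ⟨trans Q x i0, tr_len Q x i0, (ci_iff Q x c hc m i0).mp hi0, rfl⟩)
    refine ⟨h1, ?_⟩
    intro i' hi'
    by_contra hb
    have hb' : bb c CF x i' (i0 + 1) = false := by simpa using hb
    have hG := (hGF i' (by omega) (i0 + 1) h1 hb').mp
      ⟨ci_mono Q x c hc m i' i0 hi' hi0, hnot (i0 + 1) (by omega) h1⟩
    exact hn _ (Or.inr ⟨i0, trans Q x T, i', h1, full_trans Q x c hc m T i0 h1 hsz hi0 (hard0 h1),
      rfl, hi', hb', hG⟩)
  -- soundness of `YY`
  have hY : (∀ v, ¬ XX c Q O CF m T v x) → ∀ v, YY c Q O CF m T v x →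
      O (x, trans Q x T) = v := by
    rintro hn v ⟨i, w, h, hih, hhT, hw, hO, hmin, hh, hG⟩
    obtain ⟨h1, h2⟩ := hN hn
    have hh0 : i0 < h := by
      by_contra hcon
      have h3 := hh (i0 + 1) h1 (by omega)
      rw [h2 h (by omega)] at h3
      exact absurd h3 (by simp)
    have hdown : ∀ k i', h - i' ≤ k → i < i' → i' ≤ h → ¬ Ci c Q m x i' := by
      intro k
      induction k with
      | zero =>
        intro i' h3 _ h5
        have : i' = h := by omega
        subst this
        exact hnot i' hh0 hhT
      | succ k ih =>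
        intro i' h3 h4 h5
        rcases Nat.lt_or_ge i' h with h6 | h6
        · obtain ⟨l, hlT, hil, hb, hs⟩ := hG i' h6 h4
          intro hci
          have h7 : ¬ Ci c Q m x l := by
            rcases Nat.lt_or_ge h l with h8 | h8
            · exact hnot l (by omega) hlT
            · exact ih l (by omega) (by omega) h8
          exact (hGT i' (by omega) l hlT hb).mp ⟨hci, h7⟩ hs
        · have : i' = h := by omega
          subst this
          exact hnot i' hh0 hhT
    have h3 : i = i0 := by
      have h4 := hmax i hw.2.1.le (hfc i w hw)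
      by_contra hne
      exact hdown (h - i0) i0 le_rfl (by omega) hh0.le hi0
    subst h3
    have := hfull w h1 hw
    rwa [this] at hO
  -- completeness of `YY`
  have hYc : (∀ v, ¬ XX c Q O CF m T v x) → YY c Q O CF m T (O (x, trans Q x T)) x := by
    intro hn
    obtain ⟨h1, h2⟩ := hN hn
    have hex : ∃ h, h ≤ T ∧ ∀ l ≤ T, h < l → bb c CF x h l = false :=
      ⟨T, le_rfl, fun l hl hTl => by omega⟩
    obtain ⟨hT, hh⟩ := Nat.find_spec hex
    set h := Nat.find hex with hdef
    have hmin : ∀ i' < h, ∃ l ≤ T, i' < l ∧ bb c CF x i' l = true := by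
      intro i' hi'
      have := Nat.find_min hex hi'
      by_contra hcon
      apply this
      refine ⟨by omega, ?_⟩
      intro l hl hil
      by_contra hb
      exact hcon ⟨l, hl, hil, by simpa using hb⟩
    have hh0 : i0 < h := by
      by_contra hcon
      have h3 := hh (i0 + 1) h1 (by omega)
      rw [h2 h (by omega)] at h3
      exact absurd h3 (by simp)
    refine ⟨i0, trans Q x T, h, hh0, hT, full_trans Q x c hc m T i0 h1 hsz hi0 (hard0 h1), rfl,
      hmin, hh, ?_⟩
    intro i' hi' hi0'
    obtain ⟨l, hl, hil, hb⟩ := hmin i' hi'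
    refine ⟨l, hl, hil, hb, ?_⟩
    by_contra hs
    exact hnot i' hi0' (by omega) ((hGT i' (by omega) l hl hb).mpr hs).1
  constructor
  · intro hO
    by_cases h1 : XX c Q O CF m T true x
    · exact Or.inl h1
    · right
      have h2 : ¬ XX c Q O CF m T false x := by
        intro h
        have := hX false h
        rw [hO] at this
        exact absurd this (by simp)
      refine ⟨h2, ?_⟩
      have := hYc (fun v => by cases v <;> assumption)
      rwa [hO] at this
  · rintro (h | ⟨h1, h2⟩)
    · exact hX true h
    · by_cases h3 : XX c Q O CF m T true x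
      · exact hX true h3
      · exact hY (fun v => by cases v <;> assumption) true h2

end Pool.TQ
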