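import Pool.Agent.H74.TQ.StmtsF

/-!
# Two queries, module SATNP
-/

set_option autoImplicit false

namespace Pool.TQ

open TMLib Polynomial N68a2faeb N487b59b3 Pool.TwoQueries

namespace SATNPaux

lemma sz_bl_le (l : List Bool) : sz l ≤ 1 + 4 * l.length := by
  induction l with
  | nil => simp
  | cons b l ih => have := sz_bool_le b; simp; omega

/-- action of the block `1^k 0` on the stack -/
def act (w : List Bool) (k : ℕ) (s : List Bool × Bool) : List Bool × Bool :=
  if k = 0 then ((!(s.1.getD 0 false)) :: s.1.drop 1, s.2 && decide (1 ≤ s.1.length))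
  else if k = 1 then
    ((s.1.getD 1 false && s.1.getD 0 false) :: s.1.drop 2, s.2 && decide (2 ≤ s.1.length))
  else if k = 2 then
    ((s.1.getD 1 false || s.1.getD 0 false) :: s.1.drop 2, s.2 && decide (2 ≤ s.1.length))
  else (w.getD (k - 3) false :: s.1, s.2)

/-- one step -/
def stp (w : List Bool) (s : ℕ × List Bool × Bool) (b : Bool) : ℕ × List Bool × Bool :=
  if b = true then (s.1 + 1, s.2) else (0, act w s.1 s.2)

/-- the verifier -/
def VV (x w : List Bool) : Bool :=
  decide (x.foldl (stp w) (0, [], true) = (0, [true], true))

lemma ptime_act : PTime (fun p : List Bool × ℕ × List Bool × Bool => act p.1 p.2.1 p.2.2) := by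
  have hw : PTime (fun p : List Bool × ℕ × List Bool × Bool => p.1) := PTime.fst PTime.id
  have hk : PTime (fun p : List Bool × ℕ × List Bool × Bool => p.2.1) :=
    PTime.fst (PTime.snd PTime.id)
  have hs : PTime (fun p : List Bool × ℕ × List Bool × Bool => p.2.2.1) :=
    PTime.fst (PTime.snd (PTime.snd PTime.id))
  have ho : PTime (fun p : List Bool × ℕ × List Bool × Bool => p.2.2.2) :=
    PTime.snd (PTime.snd (PTime.snd PTime.id))
  have h0 : PTime (fun p : List Bool × ℕ × List Bool × Bool => p.2.2.1.getD 0 false) :=
    PTime.listGetD hs (PTime.const 0) (PTime.const false)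
  have h1 : PTime (fun p : List Bool × ℕ × List Bool × Bool => p.2.2.1.getD 1 false) :=
    PTime.listGetD hs (PTime.const 1) (PTime.const false)
  have hl : PTime (fun p : List Bool × ℕ × List Bool × Bool => p.2.2.1.length) :=
    PTime.length hs
  unfold act
  refine PTime.ite (PTime.natEq hk (PTime.const 0)) ?_ (PTime.ite (PTime.natEq hk (PTime.const 1)) ?_
    (PTime.ite (PTime.natEq hk (PTime.const 2)) ?_ ?_))
  · exact PTime.pair (PTime.cons (PTime.not h0) (PTime.drop (PTime.const 1) hs))
      (PTime.and ho (PTime.le (PTime.const 1) hl))
  · exact PTime.pair (PTime.cons (PTime.and h1 h0) (PTime.drop (PTime.const 2) hs))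
      (PTime.and ho (PTime.le (PTime.const 2) hl))
  · exact PTime.pair (PTime.cons (PTime.or h1 h0) (PTime.drop (PTime.const 2) hs))
      (PTime.and ho (PTime.le (PTime.const 2) hl))
  · exact PTime.pair (PTime.cons (PTime.listGetD hw (PTime.sub hk (PTime.const 3))
      (PTime.const false)) hs) ho

lemma ptime_stp : PTime (fun p : List Bool × (ℕ × List Bool × Bool) × Bool =>
    stp p.1 p.2.1 p.2.2) := by
  have hw : PTime (fun p : List Bool × (ℕ × List Bool × Bool) × Bool => p.1) := PTime.fst PTime.id
  have hk : PTime (fun p : List Bool × (ℕ × List Bool × Bool) × Bool => p.2.1.1) :=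
    PTime.fst (PTime.fst (PTime.snd PTime.id))
  have hs : PTime (fun p : List Bool × (ℕ × List Bool × Bool) × Bool => p.2.1.2) :=
    PTime.snd (PTime.fst (PTime.snd PTime.id))
  have hb : PTime (fun p : List Bool × (ℕ × List Bool × Bool) × Bool => p.2.2) :=
    PTime.snd (PTime.snd PTime.id)
  unfold stp
  refine PTime.ite (PTime.decide_true' hb) (PTime.pair (PTime.succ hk) hs)
    (PTime.pair (PTime.const 0) ?_)
  exact PTime.comp (g := fun p : List Bool × ℕ × List Bool × Bool => act p.1 p.2.1 p.2.2)
    (f := fun p : List Bool × (ℕ × List Bool × Bool) × Bool => (p.1, p.2.1.1, p.2.1.2))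
    ptime_act (PTime.pair hw (PTime.pair hk hs))

lemma act_len (w : List Bool) (k : ℕ) (s : List Bool × Bool) :
    (act w k s).1.length ≤ s.1.length + 1 := by
  unfold act
  split_ifs <;> simp <;> omega

lemma fold_len (w : List Bool) (x : List Bool) : ∀ s : ℕ × List Bool × Bool,
    (x.foldl (stp w) s).1 ≤ s.1 + x.length ∧
      (x.foldl (stp w) s).2.1.length ≤ s.2.1.length + x.length := by
  induction x with
  | nil => intro s; simp
  | cons b x ih =>
    intro s
    rw [List.foldl_cons]
    obtain ⟨h1, h2⟩ := ih (stp w s b)
    have h3 : (stp w s b).1 ≤ s.1 + 1 := by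
      unfold stp
      split_ifs <;> simp
    have h4 : (stp w s b).2.1.length ≤ s.2.1.length + 1 := by
      unfold stp
      split_ifs
      · simp
      · exact act_len w s.1 s.2
    simp only [List.length_cons]
    constructor <;> omega

lemma ptime_VV : PTime (fun p : List Bool × List Bool => VV p.1 p.2) := by
  have hx : PTime (fun p : List Bool × List Bool => p.1) := PTime.fst PTime.id
  have hf : PTime (fun p : List Bool × List Bool => p.1.foldl (stp p.2) (0, [], true)) := by
    refine PTime.foldl (f := fun (p : List Bool × List Bool) s b => stp p.2 s b)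
      (init := fun _ => ((0, [], true) : ℕ × List Bool × Bool)) (l := fun p => p.1) ?_
      (PTime.const _) hx (h := fun p => 10 + 3 * sz p)
      ((PB.const 10).add ((PB.const 3).mul PB.sz_self)) ?_
    · exact PTime.comp (g := fun p : List Bool × (ℕ × List Bool × Bool) × Bool =>
        stp p.1 p.2.1 p.2.2)
        (f := fun p : (List Bool × List Bool) × (ℕ × List Bool × Bool) × Bool =>
          (p.1.2, p.2.1, p.2.2)) ptime_stp
        (PTime.pair (PTime.snd (PTime.fst PTime.id))
          (PTime.pair (PTime.fst (PTime.snd PTime.id)) (PTime.snd (PTime.snd PTime.id))))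
    · intro p l hl
      change sz (l.foldl (stp p.2) (0, [], true)) ≤ 10 + 3 * sz p
      obtain ⟨h1, h2⟩ := fold_len p.2 l (0, [], true)
      have h3 := hl.length_le
      have h4 := length_lt_sz p.1
      have h5 := sz_bl_le (l.foldl (stp p.2) (0, [], true)).2.1
      have h6 := sz_bool_le (l.foldl (stp p.2) (0, [], true)).2.2
      have h1' : (l.foldl (stp p.2) (0, [], true)).1 ≤ l.length := by simpa using h1
      have h2' : (l.foldl (stp p.2) (0, [], true)).2.1.length ≤ l.length := by simpa using h2
      have h7 : sz (l.foldl (stp p.2) (0, [], true)) = 1 +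
          (2 * (l.foldl (stp p.2) (0, [], true)).1 + 1) +
          (1 + sz (l.foldl (stp p.2) (0, [], true)).2.1 +
            sz (l.foldl (stp p.2) (0, [], true)).2.2) := by
        rw [sz_pair, sz_pair, sz_nat]
      have h8 : sz p = 1 + sz p.1 + sz p.2 := sz_pair p
      omega
  unfold VV
  exact PTime.eq hf (PTime.const _)

/-- value of a formula under the assignment given by a list -/
def ev (w : List Bool) (F : BForm) : Bool := F.eval fun n => w.getD n false

lemma fold_block (w : List Bool) (j k : ℕ) (s : List Bool × Bool) :
    (block k).foldl (stp w) (j, s) = (0, act w (j + k) s) := by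
  unfold block
  rw [List.foldl_append]
  have h : ∀ (k j : ℕ), (List.replicate k true).foldl (stp w) (j, s) = (j + k, s) := by
    intro k
    induction k with
    | zero => intro j; rfl
    | succ k ih =>
      intro j
      rw [List.replicate_succ, List.foldl_cons]
      have : stp w (j, s) true = (j + 1, s) := by simp [stp]
      rw [this, ih]
      congr 1
      omega
  rw [h]
  simp [stp]

lemma fold_enc (w : List Bool) (F : BForm) : ∀ (st : List Bool) (ok : Bool),
    F.encode.foldl (stp w) (0, st, ok) = (0, ev w F :: st, ok) := by
  induction F with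
  | var n =>
    intro st ok
    have : (BForm.var n).encode = block (n + 3) := rfl
    rw [this, fold_block]
    have h0 : ¬ (0 + (n + 3) = 0) := by omega
    have h1 : ¬ (0 + (n + 3) = 1) := by omega
    have h2 : ¬ (0 + (n + 3) = 2) := by omega
    unfold act
    rw [if_neg h0, if_neg h1, if_neg h2]
    have h3 : 0 + (n + 3) - 3 = n := by omega
    rw [h3]
    rfl
  | neg F ih =>
    intro st ok
    have : (BForm.neg F).encode = F.encode ++ block 0 := rfl
    rw [this, List.foldl_append, ih, fold_block]
    simp [act, ev, BForm.eval]
  | and F G ihF ihG =>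
    intro st ok
    have : (BForm.and F G).encode = F.encode ++ G.encode ++ block 1 := rfl
    rw [this, List.foldl_append, List.foldl_append, ihF, ihG, fold_block]
    simp [act, ev, BForm.eval]
  | or F G ihF ihG =>
    intro st ok
    have : (BForm.or F G).encode = F.encode ++ G.encode ++ block 2 := rfl
    rw [this, List.foldl_append, List.foldl_append, ihF, ihG, fold_block]
    simp [act, ev, BForm.eval]

lemma ev_range (v : ℕ → Bool) (N : ℕ) (F : BForm) : F.encode.length ≤ N →
    ev ((List.range N).map v) F = F.eval v := by
  induction F with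
  | var n =>
    intro h
    have h1 : (BForm.var n).encode = block (n + 3) := rfl
    rw [h1] at h
    simp only [block, List.length_append, List.length_replicate, List.length_singleton] at h
    have h2 : n < N := by omega
    unfold ev
    simp [BForm.eval, List.getD_eq_getElem?_getD, h2]
  | neg F ih =>
    intro h
    have h1 : (BForm.neg F).encode = F.encode ++ block 0 := rfl
    rw [h1, List.length_append] at h
    have h2 := ih (by omega)
    unfold ev at h2 ⊢
    simp only [BForm.eval, h2]
  | and F G ihF ihG =>
    intro h
    have h1 : (BForm.and F G).encode = F.encode ++ G.encode ++ block 1 := rfl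
    rw [h1, List.length_append, List.length_append] at h
    have h2 := ihF (by omega)
    have h3 := ihG (by omega)
    unfold ev at h2 h3 ⊢
    simp only [BForm.eval, h2, h3]
  | or F G ihF ihG =>
    intro h
    have h1 : (BForm.or F G).encode = F.encode ++ G.encode ++ block 2 := rfl
    rw [h1, List.length_append, List.length_append] at h
    have h2 := ihF (by omega)
    have h3 := ihG (by omega)
    unfold ev at h2 h3 ⊢
    simp only [BForm.eval, h2, h3]

/-- invariant of the evaluation -/
def Inv (w pre : List Bool) (s : ℕ × List Bool × Bool) : Prop :=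
  s.2.2 = true → ∃ Fs : List BForm,
    pre = (Fs.reverse.flatMap BForm.encode) ++ List.replicate s.1 true ∧ s.2.1 = Fs.map (ev w)

lemma inv_step (w pre : List Bool) (s : ℕ × List Bool × Bool) (b : Bool) (h : Inv w pre s) :
    Inv w (pre ++ [b]) (stp w s b) := by
  obtain ⟨k, st, ok⟩ := s
  cases b with
  | true =>
    intro hok
    have e : stp w (k, st, ok) true = (k + 1, st, ok) := by simp [stp]
    rw [e] at hok ⊢
    obtain ⟨Fs, h1, h2⟩ := h hok
    refine ⟨Fs, ?_, h2⟩
    simp only at h1
    rw [h1, List.append_assoc]
    congr 1
    exact (List.replicate_succ' (n := k) (a := true)).symm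
  | false =>
    intro hok
    have e : stp w (k, st, ok) false = (0, act w k (st, ok)) := by simp [stp]
    rw [e] at hok ⊢
    have hblock : ∀ l : List Bool, l ++ List.replicate k true ++ [false] = l ++ block k := by
      intro l
      rw [block, List.append_assoc]
    by_cases h0 : k = 0
    · subst h0
      have ea : act w 0 (st, ok) = ((!(st.getD 0 false)) :: st.drop 1,
        ok && decide (1 ≤ st.length)) := by simp [act]
      rw [ea] at hok ⊢
      simp only [Bool.and_eq_true, decide_eq_true_eq] at hok
      obtain ⟨Fs, h1, h2⟩ := h hok.1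
      simp only at h1 h2
      cases Fs with
      | nil =>
        rw [h2] at hok
        simp at hok
      | cons F Fs =>
        refine ⟨BForm.neg F :: Fs, ?_, ?_⟩
        · rw [h1, hblock]
          have : (BForm.neg F).encode = F.encode ++ block 0 := rfl
          simp [List.flatMap_append, this]
        · rw [h2]
          simp [ev, BForm.eval]
    by_cases h1 : k = 1
    · subst h1
      have ea : act w 1 (st, ok) = ((st.getD 1 false && st.getD 0 false) :: st.drop 2,
        ok && decide (2 ≤ st.length)) := by simp [act]
      rw [ea] at hok ⊢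
      simp only [Bool.and_eq_true, decide_eq_true_eq] at hok
      obtain ⟨Fs, h1, h2⟩ := h hok.1
      simp only at h1 h2
      match Fs with
      | [] =>
        rw [h2] at hok
        simp at hok
      | [F] =>
        rw [h2] at hok
        simp at hok
      | G :: F :: Fs =>
        refine ⟨BForm.and F G :: Fs, ?_, ?_⟩
        · rw [h1, hblock]
          have : (BForm.and F G).encode = F.encode ++ G.encode ++ block 1 := rfl
          simp [List.flatMap_append, this]
        · rw [h2]
          simp [ev, BForm.eval]
    by_cases h2 : k = 2
    · subst h2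
      have ea : act w 2 (st, ok) = ((st.getD 1 false || st.getD 0 false) :: st.drop 2,
        ok && decide (2 ≤ st.length)) := by simp [act]
      rw [ea] at hok ⊢
      simp only [Bool.and_eq_true, decide_eq_true_eq] at hok
      obtain ⟨Fs, h1, h2⟩ := h hok.1
      simp only at h1 h2
      match Fs with
      | [] =>
        rw [h2] at hok
        simp at hok
      | [F] =>
        rw [h2] at hok
        simp at hok
      | G :: F :: Fs =>
        refine ⟨BForm.or F G :: Fs, ?_, ?_⟩
        · rw [h1, hblock]
          have : (BForm.or F G).encode = F.encode ++ G.encode ++ block 2 := rfl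
          simp [List.flatMap_append, this]
        · rw [h2]
          simp [ev, BForm.eval]
    · have ea : act w k (st, ok) = (w.getD (k - 3) false :: st, ok) := by
        unfold act
        rw [if_neg h0, if_neg h1, if_neg h2]
      rw [ea] at hok ⊢
      obtain ⟨Fs, h3, h4⟩ := h hok
      simp only at h3 h4
      refine ⟨BForm.var (k - 3) :: Fs, ?_, ?_⟩
      · rw [h3, hblock]
        have h5 : (BForm.var (k - 3)).encode = block k := by
          have : k - 3 + 3 = k := by omega
          change block (k - 3 + 3) = block k
          rw [this]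
        simp [List.flatMap_append, h5]
      · rw [h4]
        simp [ev, BForm.eval]

lemma inv_fold (w : List Bool) (x : List Bool) : ∀ (pre : List Bool) (s : ℕ × List Bool × Bool),
    Inv w pre s → Inv w (pre ++ x) (x.foldl (stp w) s) := by
  induction x with
  | nil => intro pre s h; simpa using h
  | cons b x ih =>
    intro pre s h
    rw [List.foldl_cons]
    have := ih (pre ++ [b]) (stp w s b) (inv_step w pre s b h)
    simpa using this

end SATNPaux

open SATNPaux

theorem satnp : S_SATNP := by
  refine ⟨VV, ptime_VV, fun x => ?_⟩
  unfold SAT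
  simp only [decide_eq_true_eq]
  constructor
  · rintro ⟨F, hF, v, hv⟩
    refine ⟨(List.range x.length).map v, by simp, ?_⟩
    unfold VV
    rw [decide_eq_true_iff, ← hF, fold_enc, ev_range v _ F le_rfl, hv]
  · rintro ⟨w, _, hw⟩
    unfold VV at hw
    rw [decide_eq_true_iff] at hw
    have h := inv_fold w x [] (0, [], true) (fun _ => ⟨[], by simp, by simp⟩)
    rw [hw] at h
    obtain ⟨Fs, h1, h2⟩ := h rfl
    simp only [List.nil_append, List.replicate_zero, List.append_nil] at h1 h2
    match Fs, h1, h2 with
    | [], _, h2 => simp at h2
    | [F], h1, h2 =>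
      refine ⟨F, by simpa using h1.symm, fun n => w.getD n false, ?_⟩
      have : [true] = [ev w F] := by simpa using h2
      simpa [ev] using this.symm
    | F :: G :: Fs, _, h2 => simp at h2

end Pool.TQ
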